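import Pool.Agent.Results.MP_1bdb59_nt.TypicalSequences
import Pool.Agent.U569.APL.Sel

/-!
# MP_1bdb59_nt: the Selmer group conjecture for superelliptic curves with coefficients formed from arbitrary sets, for all
# number fields at the same time

The curves over `k(t)`, `k` a number field of degree `r` containing the roots of unity of order `ℓ`, are those of the
starting results `AlmostAllCurves`, `AlmostAllMonic`, `AlmostAllTwists` and `TypicalSequences`:

* `y ^ ℓ = g_0(t) (x - g_1(t)) ⋯ (x - g_N(t))` (`curve`), `ℓ ∤ N`,
* `y ^ ℓ = δ (x - g_0(t)) ⋯ (x - g_N(t))`, for all `δ ≠ 0` in `k` at the same time (`monic`), `ℓ ∤ N + 1`, `N ≥ 2`,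
* `y ^ ℓ = D(t) G(x)` for a separable polynomial `G` over `k(t)` with all roots in `k(t)`, `ℓ ∤ deg G` (`twist`),

where the `g_i` and `D` have degree at most `n` (`n ≥ 4`, and `n ≥ 2` for the twists, `ℓ ≠ 2` if `n = 2`), and the
coordinates of their coefficients in an integral basis of `k` form an integral vector. `Sha ℓ F` is the Selmer group
conjecture at `ℓ` for the Jacobian of `y ^ ℓ = F(x)` over `k(t)`: the group of the everywhere (over the affine line) locally
trivial classes has no `ℓ`-torsion.

Let a sequence (`j = 0, 1, 2, …`) of families of such vectors be given. The vectors of the `j`-th family are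
`c₀ + y`, `c₀` an arbitrary integral vector (depending on `j`, of any size) and `y` one of the following vectors
(represented by `0, …, q - 1`); `R` is the number of the coordinates:

* `y` in any family of vectors modulo some `q` (depending on `j`), whose nontrivial Fourier coefficients are at most
  `1 / (Z (42 + 3 log q) ^ R)`, where `Z → ∞`, `Z ≤ q`;
* `β(x, z) + u(x) + w(z)` modulo a prime `P → ∞`, where `β : k ^ a × k ^ b → k ^ R` is bilinear, the nontrivial
  combinations of its coordinates have rank at least `ρ`, `x` and `z` are in ARBITRARY sets `E` and `F` with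
  `|E| |F| ≥ P ^ (a + b - ρ + δ)`, `u` and `w` are arbitrary functions (for `δ > 0` fixed);
* the same for `β(x, z) = x z`, `x` and `z` in ARBITRARY subsets of the field of `P ^ R` elements,
  `|E| |F| ≥ P ^ (R + δ)`;
* polynomials in `k` variables of degree at most `P ^ (δ / 4)`, all nontrivial combinations of which have a monomial with
  at least two variables, plus arbitrary functions of the single variables, on products of `k` ARBITRARY sets of at
  least `P ^ (1 / 2 + δ)` residues;
* polynomials in one variable of degree at most `P ^ (δ / 4)`, no nontrivial combination of which is constant, on any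
  subgroup of the multiplicative group modulo `P` with at least `P ^ (1 / 2 + δ)` elements.

**Theorem.** There is a set `E j` of exceptions in the `j`-th family, `|E j| = o(size)`, such that for ALL number fields
`k` of degree `r`, ALL integral bases, ALL primes `ℓ` (and, for the twists, ALL `G`), for large `j` the conjecture holds for
all the curves of the `j`-th family outside of `E j`.

New: the families, and that one small set of exceptions serves for all fields, bases, `ℓ` and `G`. The exceptional sets are
pronull for given structure constants, `ℓ` and one auxiliary polynomial (starting libraries `N323.TH`, `N918.EQ.Sel`); such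
sets contain few members of the families by the theorem of the starting library `N384.VF` on vectors of residues; the
estimates of the Fourier coefficients on arbitrary sets are in `U569/APL`.
-/

set_option autoImplicit false
set_option linter.all false

open Polynomial NumberField Filter

namespace Pool.Agent.Results.MP_1bdb59_nt.ArbitrarySets

open Pool.Agent.U569.APL
open Pool.Agent.U569.APL.Sel (flat_curves flat_twists outside_mono)
open Pool.Agent.Results.MP_1bdb59_nt.TypicalSequences (poly curve monic twist Sha)

theorem result (n r : ℕ) :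
    (4 ≤ n → ∀ (N : ℕ) (τ : ℕ → Type) (s : ∀ j, Finset (τ j))
      (v : ∀ j, τ j → (Fin (N + 1) × Fin (n + 1)) × Fin r → ℤ), FlatFamilies s v →
      ∃ E : ∀ j, Finset (τ j), Small s E ∧
        ∀ (k : Type) [Field k] [NumberField k] (B : Module.Basis (Fin r) ℤ (𝓞 k)) (ℓ : ℕ), ℓ.Prime →
          (∃ ζ : k, IsPrimitiveRoot ζ ℓ) →
          (¬ ℓ ∣ N → Outside s E v fun c => Sha ℓ (curve B c)) ∧
          (2 ≤ N → ¬ ℓ ∣ N + 1 → Outside s E v fun c => ∀ δ : k, δ ≠ 0 → Sha ℓ (monic B δ c))) ∧
    (2 ≤ n → ∀ (τ : ℕ → Type) (s : ∀ j, Finset (τ j))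
      (v : ∀ j, τ j → Fin (n + 1) × Fin r → ℤ), FlatFamilies s v →
      ∃ E : ∀ j, Finset (τ j), Small s E ∧
        ∀ (k : Type) [Field k] [NumberField k] (B : Module.Basis (Fin r) ℤ (𝓞 k)) (ℓ : ℕ), ℓ.Prime →
          (∃ ζ : k, IsPrimitiveRoot ζ ℓ) → ∀ G : (RatFunc k)[X], G.Splits → G.Separable →
          ¬ ℓ ∣ G.natDegree → (n = 2 → ℓ ≠ 2) → Outside s E v fun c => Sha ℓ (twist B c G)) ∧
    ∀ (ι : Type) [Fintype ι], Examples ι := by
  refine ⟨fun hn N τ s v hs => ?_, fun hn τ s v hs => ?_, fun ι _ => examples ι⟩
  · obtain ⟨E, hE, h⟩ := flat_curves r N n hn hs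
    refine ⟨E, hE, fun k _ _ B ℓ hℓ ⟨ζ, hζ⟩ => ?_⟩
    obtain ⟨h1, h2⟩ := h k B ℓ hℓ ζ hζ
    refine ⟨fun hN => outside_mono (h1 hN) ?_, fun hN2 hN => outside_mono (h2 hN2 hN) ?_⟩
    · intro c hc
      have hs : Pool.Agent.Y713.Jac.ShaPrimaryTrivial ℓ (curve B c) k[X] := by
        by_contra hno
        exact hc hno
      exact ⟨hs, Pool.Agent.Y713.Jac.ShaPrimaryTrivial.tate hs⟩
    · intro c hc
      have hs : ∀ δ : k, δ ≠ 0 → Pool.Agent.Y713.Jac.ShaPrimaryTrivial ℓ (monic B δ c) k[X] := by
        by_contra hno
        exact hc hno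
      exact fun δ hδ => ⟨hs δ hδ, Pool.Agent.Y713.Jac.ShaPrimaryTrivial.tate (hs δ hδ)⟩
  · obtain ⟨E, hE, h⟩ := flat_twists r n hn hs
    refine ⟨E, hE, fun k _ _ B ℓ hℓ ⟨ζ, hζ⟩ G hsp hsep hdeg hn3 => ?_⟩
    refine outside_mono (h k B ℓ hℓ ζ hζ G hsp hsep hdeg hn3) ?_
    intro c hc
    have hs : Pool.Agent.Y713.Jac.ShaPrimaryTrivial ℓ (twist B c G) k[X] := by
      by_contra hno
      exact hc hno
    exact ⟨hs, Pool.Agent.Y713.Jac.ShaPrimaryTrivial.tate hs⟩

end Pool.Agent.Results.MP_1bdb59_nt.ArbitrarySets
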