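import Pool.Agent.U552.UD.FairOrd
import Pool.Agent.Results.MP_1bdb59_nt.TypicalSequences

/-!
# MP_1bdb59_nt: the Selmer group conjecture for superelliptic curves along all fair sequences: real polynomials, arbitrary
# functions of given orders

`GoodCurves N m r S c` and `GoodTwists m r S c` are the properties of the starting result `TypicalSequences` for the curves

* `y ^ ℓ = g_0(t) (x - g_1(t)) ⋯ (x - g_N(t))`, `ℓ ∤ N`,
* `y ^ ℓ = δ (x - g_0(t)) ⋯ (x - g_N(t))`, `ℓ ∤ N + 1`, for all `δ ≠ 0` in `k` at the same time,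
* `y ^ ℓ = D(t) G(x)` for all `G` over `k(t)` which are separable, with all roots in `k(t)`, `ℓ ∤ deg G`,

`deg g_i ≤ m`, `deg D ≤ m`, the coefficient vectors of which form the sequence `c 0, c 1, c 2, ...`: for ALL number fields `k`
of degree `r` with ALL integral bases and ALL primes `ℓ` for which `k` contains the roots of unity of order `ℓ`, the Selmer
group conjecture at `ℓ` for the Jacobian over `k(t)` holds for all the times `n < M` up to a proportion which tends to
zero, `M → ∞` (with `S M = {0, ..., M - 1}`).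

**Theorem.** (1) Let the sequence `c_{n,0}, c_{n,1}, …`, `n = 0, 1, …`, of infinite integral vectors be `Fair`: for every finite set of
indices with `s` elements the proportion of the `n < N` with given residues of the `c_{n,l}` modulo `q` is at most
`C q ^ (-s) + o(1)`, where `C` depends on the set of indices only. Then for ALL `m ≥ 4`, `N`, `r` and all injective choices of coordinates of the vectors as the
integral coordinates of the coefficients the sequence of vectors has the property `GoodCurves N m r`, and for ALL `m ≥ 2`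
and `r` and all injective choices of coordinates it has the property `GoodTwists m r`.

(2) `c_{n,l} = ⌊x_l(n)⌋` is fair if the exponential means of all nontrivial rational combinations of the real sequences `x_l`
tend to zero (`UniformlyDistributed`).

(3) This is so for the values `x_l(n) = P_l(n)` of real polynomials if no nontrivial integral combination of finitely many of
them has only rational coefficients in positive degrees, for example for `x_l(n) = α_l n`, where `1, α_0, α_1, …` are
linearly independent over the rational numbers.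

(4) `c_{n,l} = ⌊f_l(n)⌋` is fair for ARBITRARY functions of different orders `γ_l > 0`: for some `d > γ_l` (common for any
finitely many of them) the differences of order `d` of `f_l` have a constant sign and are `n ^ (γ_l - d + o(1))` in absolute
value. There is no smoothness and no formula; examples are `n ^ γ` with `γ` not an integer, `n ^ j log n`, all functions of
a Hardy field with the same growth, plus arbitrary real polynomials of degree below `d`, and irregular functions.

The starting result `TypicalSequences` has the sequences which are exactly equidistributed modulo all `q` prime to some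
number (`C = 1` in `Fair`), and almost all members of metric families.

Proof. The exceptional vectors are in countably many pronull sets (starting library, `N918.EQ.Sel`); fair sequences visit a
pronull set only at times of density zero. (2) uses products of Fejer kernels (`Pool.Agent.U552.UD`), (3) is Weyl's theorem
(starting library), (4) is a derivative test of order `d` for functions without smoothness (helper828,
`Pool.Agent.U828.KD.order_well`).
-/

set_option autoImplicit false

namespace Pool.Agent.Results.MP_1bdb59_nt.FairSequences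

open Filter Topology MeasureTheory
open Pool.Agent.Results.MP_1bdb59_nt.TypicalSequences (GoodCurves GoodTwists usually_of_rareIn)
open Pool.Agent.N918.EQ (RareIn rareIn_of_rarely)

/-- `S` has density zero. -/
def Null (S : Set ℕ) : Prop :=
  Tendsto (fun N : ℕ => (({n : ℕ | n < N ∧ n ∈ S}.ncard : ℕ) : ℝ) / (N : ℝ)) atTop (𝓝 0)

/-- For every finite set of indices, with `s` elements, the proportion of the `n < N` with given residues of the
`c n l` modulo `q` is at most `C q ^ (-s) + o(1)`, where `C` depends on the set only. -/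
def Fair (c : ℕ → ℕ → ℤ) : Prop :=
  ∀ s : Finset ℕ, ∃ C : ℝ, ∀ q : ℕ, 0 < q → ∀ (a : ℕ → ℤ) (δ : ℝ), 0 < δ → ∃ N₀ : ℕ, ∀ N : ℕ, N₀ ≤ N →
    (({n : ℕ | n < N ∧ ∀ l ∈ s, (q : ℤ) ∣ c n l - a l}.ncard : ℕ) : ℝ) ≤ (C / (q : ℝ) ^ s.card + δ) * N

/-- The exponential means of all nontrivial rational combinations of the sequences `x 0, x 1, …` tend to zero. -/
def UniformlyDistributed (x : ℕ → ℕ → ℝ) : Prop :=
  ∀ (s : Finset ℕ) (h : ℕ → ℚ), (∃ l ∈ s, h l ≠ 0) →
    Tendsto (fun N : ℕ => (∑ n ∈ Finset.range N,
      Complex.exp (2 * Real.pi * ((∑ l ∈ s, (h l : ℝ) * x l n : ℝ) : ℂ) * Complex.I)) / (N : ℂ)) atTop (𝓝 0)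

/-- No nontrivial integral combination of finitely many of the polynomials has only rational coefficients in positive
degrees. -/
def Independent (P : ℕ → Polynomial ℝ) : Prop :=
  ∀ (s : Finset ℕ) (h : ℕ → ℤ), (∃ l ∈ s, h l ≠ 0) →
    ∃ j : ℕ, 1 ≤ j ∧ Irrational (∑ l ∈ s, (h l : ℝ) * (P l).coeff j)

/-- The differences of order `d` of `f` have a constant sign and are `n ^ (c - d + o(1))` in absolute value. -/
def Order (d : ℕ) (c : ℝ) (f : ℕ → ℝ) : Prop :=
  ∀ ε : ℝ, 0 < ε → ∃ T : ℕ,
    (∀ n : ℕ, T ≤ n → (n : ℝ) ^ (c - d - ε) ≤ (fwdDiff 1)^[d] f n ∧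
      (fwdDiff 1)^[d] f n ≤ (n : ℝ) ^ (c - d + ε)) ∨
    (∀ n : ℕ, T ≤ n → (n : ℝ) ^ (c - d - ε) ≤ -(fwdDiff 1)^[d] f n ∧
      -(fwdDiff 1)^[d] f n ≤ (n : ℝ) ^ (c - d + ε))

/-- For every `k` the functions `f_0, …, f_k` have the orders `γ_0, …, γ_k`, with a common order of differences. -/
def Orders (γ : ℕ → ℝ) (f : ℕ → ℕ → ℝ) : Prop :=
  ∀ k : ℕ, ∃ d : ℕ, 2 ≤ d ∧ ∀ l ≤ k, γ l < d ∧ Order d (γ l) (f l)

theorem rareIn {ι : Type} [Fintype ι] {c : ℕ → ι → ℤ} (hc : Pool.Agent.U125.NO.Avoids c)
    {D : Set (ι → ℤ)} (hD : Pool.Agent.N24.RW.ProNull D) : RareIn Finset.range c D :=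
  rareIn_of_rarely (hc (fun x => x ∈ D) hD)

theorem fair_main (x : ℕ → ℕ → ℤ) (hx : Fair x) :
    (∀ m : ℕ, 4 ≤ m → ∀ (N r : ℕ) (σ : (Fin (N + 1) × Fin (m + 1)) × Fin r → ℕ), Function.Injective σ →
      GoodCurves N m r Finset.range (fun n i => x n (σ i))) ∧
    ∀ m : ℕ, 2 ≤ m → ∀ (r : ℕ) (σ : Fin (m + 1) × Fin r → ℕ), Function.Injective σ →
      GoodTwists m r Finset.range (fun n i => x n (σ i)) := by
  refine ⟨fun n hn N r σ hσ => ?_, fun n hn r σ hσ => ?_⟩
  · have hc := Pool.Agent.U552.UD.Fair.avoids hx _ σ hσ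
    have h := Pool.Agent.N918.EQ.Sel.ae_curves r N n hn (Measure.dirac ()) (fun _ : Unit => True)
      Finset.range (fun _ => fun n i => x n (σ i)) (fun D hD => Filter.Eventually.of_forall fun _ _ => rareIn hc hD)
    rw [ae_dirac_iff (by measurability)] at h
    intro k _ _ B ℓ hℓ ζ hζ
    obtain ⟨h1, h2⟩ := h trivial k B ℓ hℓ ζ hζ
    refine ⟨fun hN => usually_of_rareIn (h1 hN) ?_, fun hN2 hN => usually_of_rareIn (h2 hN2 hN) ?_⟩
    · intro m hno hs
      exact hno ⟨hs, Pool.Agent.Y713.Jac.ShaPrimaryTrivial.tate hs⟩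
    · intro m hno hs
      exact hno fun δ hδ => ⟨hs δ hδ, Pool.Agent.Y713.Jac.ShaPrimaryTrivial.tate (hs δ hδ)⟩
  · have hc := Pool.Agent.U552.UD.Fair.avoids hx _ σ hσ
    have h := Pool.Agent.N918.EQ.Sel.ae_twists r n hn (Measure.dirac ()) (fun _ : Unit => True)
      Finset.range (fun _ => fun n i => x n (σ i)) (fun D hD => Filter.Eventually.of_forall fun _ _ => rareIn hc hD)
    rw [ae_dirac_iff (by measurability)] at h
    intro k _ _ B ℓ hℓ ζ hζ G hG1 hG2 hG3 hn2
    refine usually_of_rareIn (h trivial k B ℓ hℓ ζ hζ G hG1 hG2 hG3 hn2) ?_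
    intro m hno hs
    exact hno ⟨hs, Pool.Agent.Y713.Jac.ShaPrimaryTrivial.tate hs⟩

/-- **The Selmer group conjecture for superelliptic curves along fair sequences.** -/
theorem result :
    (∀ c : ℕ → ℕ → ℤ, Fair c →
      (∀ m : ℕ, 4 ≤ m → ∀ (N r : ℕ) (σ : (Fin (N + 1) × Fin (m + 1)) × Fin r → ℕ), Function.Injective σ →
        GoodCurves N m r Finset.range (fun n i => c n (σ i))) ∧
      ∀ m : ℕ, 2 ≤ m → ∀ (r : ℕ) (σ : Fin (m + 1) × Fin r → ℕ), Function.Injective σ →
        GoodTwists m r Finset.range (fun n i => c n (σ i))) ∧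
    (∀ x : ℕ → ℕ → ℝ, UniformlyDistributed x → Fair (fun n l => ⌊x l n⌋)) ∧
    (∀ P : ℕ → Polynomial ℝ, Independent P → UniformlyDistributed (fun l n => (P l).eval (n : ℝ))) ∧
    ∀ (γ : ℕ → ℝ) (f : ℕ → ℕ → ℝ), (∀ l, 0 < γ l) → Function.Injective γ → Orders γ f →
      Fair (fun n l => ⌊f l n⌋) :=
  ⟨fun c hc => fair_main c hc,
    fun _ hx => Pool.Agent.U552.UD.fair_of_weyl hx,
    fun _ hP => Pool.Agent.U552.UD.weylFamily_of_poly hP,
    fun _ _ h0 hinj hf => Pool.Agent.U552.UD.fair_of_orders h0 hinj hf⟩

end Pool.Agent.Results.MP_1bdb59_nt.FairSequences
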