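import Pool.Agent.U407.NP23
import Pool.Agent.Results.MP_1d384c_nt.LeadingFormStatistics

/-!
# Selmer groups of Jacobians of Artin–Schreier curves over finitely generated ground fields

Let `k` be a field of characteristic `p`, finitely generated over its prime field (finite or
infinite), let `a` and `b` be coprime and `g a`, `g b` divisors of `p - 1`, and let

  `f = u ∑_{i ≤ g} Φ_i x^{a i} t^{b (g - i)} + ∑_{(m, n) ∈ D} φ_{m, n} x^m t^n`

with `u ≠ 0`, `Φ = X^g + Φ_{g-1} X^{g-1} + ⋯ + Φ_0` and `φ_{m, n}` in `k`; here `D` is a finite set of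
exponents below the edge, `b m + a n < g a b` (for `a = b = 1` and all such exponents: all the
polynomials of degree `g` with the coefficient of `x ^ g` nonzero). Let `K` be the function field of
the curve `z_l^p - z_l = h_l(t)`, `l < r`, with `h_l ∈ k[t]` of degree less than `b g` (for
`r = 0`: the field `k(t)`), supposed to be geometrically irreducible, and let `J` be the Jacobian of
the curve `y^p - y = f(x, t)` over `K`.

We show that one closed point of a model of `k` is enough to bound the Selmer group of `J`; and that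
the conjecture holds for the generic curve of the family over all these fields `K`.
-/

set_option autoImplicit false

namespace Pool.Agent.Results.MP_1bdb59_nt.GenericArtinSchreierCurves

open Polynomial Module
open Pool.Agent.Results.MP_1d384c_nt.LeadingFormStatistics

variable {Γ : Type} [Group Γ] {V : Type} [AddCommGroup V] [Module ℂ V]

/-- The group `Γ` is the fundamental group of a normal model `U`, of finite type over the prime
field, of the field `k`, over which the family (with a squarefree leading form `Φ` everywhere) is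
defined, `χ` is the inverse of the cyclotomic character, `ρ` is the representation of `Γ` on
`V = H ^ 2_c(Y ⊗ k̄)`, with coefficients `ℂ ≅ ℚ̄_ℓ`, `ℓ ≠ p`; here `Y` is the affine surface
`y^p - y = f(x, t)`, `z_l^p - z_l = h_l(t)`. `σ` is a geometric Frobenius at a closed point `s` of `U`
with residue field `κ` (or a power of it, if `κ` is an extension of the residue field), and `m` is
the reduction of `f` at `s`. `IsPlace` lists the known properties: `χ(σ) = #κ`; and the polynomial
`det (1 - T σ)` is the `L`-function `L` of the reduction at `s`, which is given by the numbers of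
points (trace formula: `H ^ 3_c(Y)` and `H ^ 4_c(Y)` are the ones of the product of the affine line
with the curve `z_l^p - z_l = h_l(t)`), `h` being the reduction of the polynomials `h_l`. -/
def IsPlace [FiniteDimensional ℂ V] (p a b : ℕ) {g : ℕ} {D : Finset (ℕ × ℕ)} {κ : Type} [Field κ]
    [Fintype κ]
    (m : Member κ g D) (r : ℕ) (χ : Γ →* ℂˣ) (ρ : Representation ℂ Γ V) (σ : Γ) : Prop :=
  ((χ σ : ℂˣ) : ℂ) = Fintype.card κ ∧
    ∃ (h : Fin r → κ[X]) (L : ℚ[X]), (∀ l, (h l).natDegree < b * g) ∧
      IsLFunction p (poly a b m) h L ∧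
      L.map (algebraMap ℚ ℂ) = (LinearMap.charpoly (ρ σ)).reverse

variable {A S T : Type} [AddCommGroup A] [Module ℂ A] [AddCommGroup S] [Module ℂ S]
  [AddCommGroup T] [Module ℂ T]

/-- The known properties of the Mordell–Weil group `A = J(K) ⊗ ℂ`, the Selmer group
`S = Sel(J, ℤ_ℓ) ⊗ ℂ` and the Tate module `T = T_ℓ Ш(J) ⊗ ℂ` of the Tate–Shafarevich group
(`ℂ ≅ ℚ̄_ℓ`): they form an exact sequence `0 → A → S → T → 0`, and `S` is contained in the part of
`V` on which `Γ` acts by `χ`, that is in `V(1) ^ Γ`. (The `K / k`-trace of `J` is zero; the classes in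
the Selmer group are unramified over the algebraic closure of `k`, i.e. in the cohomology of degree
one of the complete curve over `k̄` with values in the direct image of `V_ℓ J`, which is a quotient of
`V(1)`.) -/
structure IsSelmerGroup (χ : Γ →* ℂˣ) (ρ : Representation ℂ Γ V) (j : A →ₗ[ℂ] S) (π : S →ₗ[ℂ] T)
    (ι : S →ₗ[ℂ] V) : Prop where
  injective : Function.Injective j
  exact : LinearMap.range j = LinearMap.ker π
  surjective : Function.Surjective π
  embedding : Function.Injective ι
  invariant : ∀ γ s, ρ γ (ι s) = ((χ γ : ℂˣ) : ℂ) • ι s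

/-- the bound at one closed point -/
theorem bound {p : ℕ} (hp : p.Prime) {a b g : ℕ} (hab : a.Coprime b) (hga : g * a ∣ p - 1)
    (hgb : g * b ∣ p - 1) {D : Finset (ℕ × ℕ)} (hD : ∀ d ∈ D, b * d.1 + a * d.2 < g * (a * b))
    {r : ℕ} [FiniteDimensional ℂ V] {χ : Γ →* ℂˣ} {ρ : Representation ℂ Γ V} {j : A →ₗ[ℂ] S}
    {π : S →ₗ[ℂ] T} {ι : S →ₗ[ℂ] V} (hS : IsSelmerGroup χ ρ j π ι) {κ : Type} [Field κ] [Fintype κ]
    [CharP κ p] {m : Member κ g D} {σ : Γ} (hm : IsGood p a b m) (hσ : IsPlace p a b m r χ ρ σ) :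
    Module.Finite ℂ A ∧ Module.Finite ℂ T ∧
      finrank ℂ A + finrank ℂ T ≤ p ^ r * (p - 1) * (numFactors (form m) - 1) := by
  obtain ⟨hχ, h, L, hh, hL, hLσ⟩ := hσ
  obtain ⟨s, -, hs⟩ := FiniteField.card κ p
  have hq : Fintype.card κ ≠ 0 := Fintype.card_ne_zero
  have hq' : (Fintype.card κ : ℚ) ≠ 0 := Nat.cast_ne_zero.2 hq
  have hL0 : L ≠ 0 := by
    intro h0
    have h1 := hL.1
    rw [h0, coeff_zero] at h1
    exact zero_ne_one h1
  obtain ⟨n, M, hLM, hMe⟩ := Pool.Agent.U407.LF.exists_order hq' hL0
  obtain ⟨h5, -, -⟩ := pointwise p hp s hs a b g hab hga hgb D hD m hm r h hh L hL n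
    (M.eval (1 / (Fintype.card κ : ℚ))) ⟨M, hLM, rfl, hMe⟩
  have h6 := Pool.Agent.U407.SG.mult_le (ρ σ) L hLσ hq hLM hMe
  obtain ⟨h1, -, h3, h4⟩ := Pool.Agent.U407.SG.dims hS.injective hS.exact hS.surjective
    hS.embedding (E := Module.End.eigenspace (ρ σ) (Fintype.card κ : ℂ)) fun s => by
      rw [Module.End.mem_eigenspace_iff, hS.invariant, hχ]
  exact ⟨h1, h3, h4.trans (h6.trans h5)⟩

/-- **Selmer groups of Artin–Schreier curves over finitely generated fields.** The notation is the
one at the beginning of the file. For a polynomial `m` over the residue field `κ` of a closed point let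
`e` be the number of the irreducible factors of its leading form `Φ`; `m` is good if `Φ` is
squarefree and ordinary.

(1) If **one** closed point exists at which the reduction of `f` is good then the sum of the rank of
`J(K)` and of the corank `rank T_ℓ Ш(J)` is at most `p^r (p - 1) (e - 1)`. In particular, if the
reduction of the leading form is irreducible at this point, then `J(K)` is finite and
`T_ℓ Ш(J) = 0`, for all `ℓ ≠ p`.

(2) Suppose that every good polynomial over every finite field which contains the field with `p ^ N`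
elements is the reduction of `f` at some closed point. Then `J(K)` is finite and `T_ℓ Ш(J) = 0`. This is
so for the generic curve of the family: `k` is the field of rational functions in the coefficients
`u`, `Φ_i`, `φ_{m, n}` over the field with `p ^ N` elements, and the `h_l` are polynomials in `t` and in
the coefficients. So the conjecture holds for the generic curve, over all the fields `K`, that is
for all `r` and all such `h_1, …, h_r`, and for all `ℓ ≠ p`.

(3) A good member with irreducible leading form exists over every finite field of characteristic `p`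
with more than `g (B + 1)` elements, where `B = hasseDegree p a b g`. -/
theorem result {p : ℕ} (hp : p.Prime) {a b g : ℕ} (hab : a.Coprime b) (hga : g * a ∣ p - 1)
    (hgb : g * b ∣ p - 1) {D : Finset (ℕ × ℕ)} (hD : ∀ d ∈ D, b * d.1 + a * d.2 < g * (a * b)) :
    (∀ (r : ℕ) {Γ : Type} [Group Γ] {V A S T : Type} [AddCommGroup V] [Module ℂ V]
      [FiniteDimensional ℂ V] [AddCommGroup A] [Module ℂ A] [AddCommGroup S] [Module ℂ S]
      [AddCommGroup T] [Module ℂ T] {χ : Γ →* ℂˣ} {ρ : Representation ℂ Γ V} {j : A →ₗ[ℂ] S}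
      {π : S →ₗ[ℂ] T} {ι : S →ₗ[ℂ] V}, IsSelmerGroup χ ρ j π ι →
      (∀ (κ : Type) [Field κ] [Fintype κ] [CharP κ p] (m : Member κ g D) (σ : Γ),
        IsGood p a b m → IsPlace p a b m r χ ρ σ →
        Module.Finite ℂ A ∧ Module.Finite ℂ T ∧
        finrank ℂ A + finrank ℂ T ≤ p ^ r * (p - 1) * (numFactors (form m) - 1)) ∧
      (∀ N : ℕ, (∀ (κ : Type) [Field κ] [Fintype κ] [CharP κ p] (m : Member κ g D),
          (∃ n : ℕ, Fintype.card κ = p ^ (N * n)) → IsGood p a b m →
          ∃ σ : Γ, IsPlace p a b m r χ ρ σ) → N ≠ 0 →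
        Subsingleton A ∧ Subsingleton T)) ∧
    (∀ (κ : Type) [Field κ] [Fintype κ] [CharP κ p],
      g * (hasseDegree p a b g + 1) < Fintype.card κ →
      ∃ m : Member κ g D, IsGood p a b m ∧ numFactors (form m) = 1) := by
  have hp1 : p - 1 ≠ 0 := by
    have := hp.two_le
    omega
  have hga0 : g * a ≠ 0 := fun h => hp1 (by rwa [h, zero_dvd_iff] at hga)
  have hgb0 : g * b ≠ 0 := fun h => hp1 (by rwa [h, zero_dvd_iff] at hgb)
  have hg0 : g ≠ 0 := left_ne_zero_of_mul hga0
  have ha : a ≠ 0 := right_ne_zero_of_mul hga0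
  have hb : b ≠ 0 := right_ne_zero_of_mul hgb0
  have hM : g * (a * b) ∣ p - 1 := Pool.Agent.N867.AS.TV.dvd_M hab hg0 hga hgb
  have h3 : ∀ (κ : Type) [Field κ] [Fintype κ] [CharP κ p],
      g * (hasseDegree p a b g + 1) < Fintype.card κ →
      ∃ m : Member κ g D, IsGood p a b m ∧ numFactors (form m) = 1 := by
    intro κ _ _ _ hκ
    obtain ⟨α, hα1, hα2⟩ := Pool.Agent.U407.SG.exists_good (κ := κ) hp ha hb hab hg0 hM (by
      rw [Nat.card_eq_fintype_card]
      exact hκ)
    exact ⟨(1, α, 0), ⟨hα1.squarefree, hα2⟩, Pool.Agent.U407.LF.card_factors_eq_one hα1⟩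
  refine ⟨?_, h3⟩
  intro r Γ _ V A S T _ _ _ _ _ _ _ _ _ χ ρ j π ι hS
  refine ⟨fun κ _ _ _ m σ hm hσ => bound hp hab hga hgb hD hS hm hσ, fun N hall hN => ?_⟩
  have : Fact p.Prime := ⟨hp⟩
  obtain ⟨n, hn⟩ : ∃ n : ℕ, n = g * (hasseDegree p a b g + 1) + 1 := ⟨_, rfl⟩
  have hNn : N * n ≠ 0 := mul_ne_zero hN (by omega)
  have : Fintype (GaloisField p (N * n)) := Fintype.ofFinite _
  have hcard : Fintype.card (GaloisField p (N * n)) = p ^ (N * n) := by
    rw [← Nat.card_eq_fintype_card]
    exact GaloisField.card p (N * n) hNn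
  obtain ⟨m, hm, hm1⟩ := h3 (GaloisField p (N * n)) (by
    rw [hcard]
    have h4 : N * n < p ^ (N * n) := Nat.lt_pow_self hp.one_lt
    have h5 : n ≤ N * n := Nat.le_mul_of_pos_left n (Nat.pos_of_ne_zero hN)
    omega)
  obtain ⟨σ, hσ⟩ := hall (GaloisField p (N * n)) m ⟨n, hcard⟩ hm
  obtain ⟨h6, h7, h8⟩ := bound hp hab hga hgb hD hS hm hσ
  rw [hm1, Nat.sub_self, mul_zero, Nat.le_zero, Nat.add_eq_zero_iff] at h8
  exact ⟨finrank_zero_iff.1 h8.1, finrank_zero_iff.1 h8.2⟩

end Pool.Agent.Results.MP_1bdb59_nt.GenericArtinSchreierCurves
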