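import Pool.Agent.U693.AF.Sub

/-!
# The Selmer group conjecture at `ℓ = 2` for a positive proportion of all odd hyperelliptic curves and all
# their quadratic twists, over ALL the fields between `k(t)` and the members of an infinite class

Let `g ≥ 1`, let `k` be a finite field of characteristic larger than `2 g + 1` and `K = k(t)`. Every curve
of genus `g` over `K` with a map of degree two to the projective line and a rational Weierstrass point has
an equation `y ^ 2 = f(x)`, where `f` is a monic polynomial of degree `2 g + 1` over `k[t]` without term of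
degree `2 g`, such that there is no irreducible `P` with `P ^ (2 (2 g + 1 - j)) ∣ f_j` for all `j`; its
height is the least `N` with `deg f_j ≤ N (2 g + 1 - j)` for all `j`. For `g = 1` these are all elliptic
curves over `K`. Let `J` be the Jacobian of the curve.

For `f` and a finite set `S` of primes of `k[t]` let `C(f, S)` be the class of all the finite Galois
extensions `M` of `K` of 2-power degree in which all `Q ∈ S` split completely and in which only such primes
`P` of `k[t]` are ramified modulo which `f` is irreducible (there is no condition at infinity).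

Theorem. Let `M₀` be any finite Galois extension of `K` of 2-power degree. There are a finite set `S` of
primes and a constant `c > 0` such that for all large `N` at least `c` times the number of ALL the curves of
genus `g` over `K` of height at most `N` (with a rational Weierstrass point) have the following properties:

* `M₀` is in the class `C(f, S)`, the class is closed under composita, and there is an infinite set `Y` of
  primes such that all the `K(√D)`, `D` a product of an even number of different elements of `Y`, are in it;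
* for ALL `M` in the class, ALL fields `L` between `K` and `M` (Galois over `K` or not) and ALL quadratic
  characters `χ` of `L` which are trivial on `Gal(L^sep / M)`, that is for all the curves
  `X_χ : d y ^ 2 = f(x)` over `L` with `√d` in `M`, the Jacobian `J_χ` of `X_χ` over `L` has the following
  properties: multiplication by two is bijective on `J_χ(L)`; every class of 2-power order in
  `H ^ 1 (L, J_χ)` which is zero over the completions of `L` at the places which are not over infinity is
  zero; and for every `m` every class in `H ^ 1 (L, J_χ[2 ^ m])` whose image in `H ^ 1 (L_v, J_χ)` is zero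
  for all these places `v` is zero.

So `Sel(J_χ, 2 ^ m) = 0` for all `m`, `Sel(J_χ, ℤ_2) = 0 = J_χ(L) ⊗ ℤ_2` and `T_2 Ш(J_χ) = 0`: the
conjecture holds for the curve `X_χ` over the function field `L` and `ℓ = 2`, even without the conditions at
the places over infinity. Here `L` is the function field of a curve over a finite field; the curves `X_χ`
need not be defined over `K`.

What is new. For `L = M`, `χ = 1` see the starting results `MP_1bdb59_nt.SelmerOverTwoCovers` (one given `M`)
and `MP_ff7320_nt.UniformOverTwoExtensions` (projects JM and TW, helper874; all `M` in the class), whose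
theorem over `M` is used. New are the fields `L` between `K` and `M` and the curves `X_χ` over them (Galois
descent from `M` with twisted coefficients, `Pool/Agent/U693/AF`: the kernels of the restriction maps are
cohomology groups of a 2-group with values in a uniquely 2-divisible group), and the Selmer groups for the
whole class. For forms of powers of `J`, which are not Jacobians of curves, see my
`MP_72e2e6_nt.AllFormsOverSubfields` (Tate-Shafarevich groups only).
-/


set_option autoImplicit false
set_option linter.all false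

namespace Pool.Agent.Results.MP_1bdb59_nt.SelmerOverSubfields

open Polynomial Filter IsDedekindDomain
open Pool.Agent.Y160.SE (jm)
open Pool.Agent.N874.Jac (J mapJ)
open scoped Classical

/-- `y ^ 2 = f(x)` is a minimal equation of a curve of genus `g` with a rational Weierstrass point
over `K = k(t)`, of height at most `N`. -/
structure IsCurve {k : Type} [Field k] (K : Type) [Field K] [Algebra k[X] K] (g N : ℕ)
    (f : k[X][X]) : Prop where
  monic : f.Monic
  degree : f.natDegree = 2 * g + 1
  trace : f.coeff (2 * g) = 0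
  height : ∀ j ≤ 2 * g, (f.coeff j).natDegree ≤ N * (2 * g + 1 - j)
  smooth : (f.map (algebraMap k[X] K)).Separable
  minimal : ∀ P : k[X], Irreducible P →
    ¬ ∀ j < 2 * g + 1, P ^ (2 * (2 * g + 1 - j)) ∣ f.coeff j

/-- The curves of genus `g` over `K = k(t)` of height at most `N`. -/
def Curves (k : Type) [Field k] (K : Type) [Field K] [Algebra k[X] K] (g N : ℕ) : Set k[X][X] :=
  {f | IsCurve K g N f}

section twists

/-- The absolute Galois group of `L`, with the Krull topology. -/
abbrev GS (L : Type) [Field L] : Type := SeparableClosure L ≃ₐ[L] SeparableClosure L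

variable {L : Type} [Field L] (F : L[X])

/-- The group `J(L')`, written additively, for the Jacobian `J` of `y ^ 2 = F(x)`: the Picard group of the
affine curve over `L'`. -/
abbrev Pt (L' : Type) [Field L'] [Algebra L L'] : Type := Additive (J F L')

/-- The map `J(L') → J(L'')`, `P ↦ ε φ(P)`, for a homomorphism `φ` of fields and a sign `ε`. -/
noncomputable def move (ε : ℤˣ) {L' L'' : Type} [Field L'] [Field L''] [Algebra L L']
    [Algebra L L''] (φ : L' →ₐ[L] L'') (P : Pt F L') : Pt F L'' :=
  (ε : ℤ) • (mapJ F φ).toAdditive P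

/-- Functions on the absolute Galois group with values in `J(L^sep)`. -/
abbrev Cochain : Type := GS L → Pt F (SeparableClosure L)

variable (χ : GS L →* ℤˣ)

/-- The action of the Galois group on `J_χ(L^sep) = J(L^sep)`: `σ * P = χ(σ) σ(P)`. -/
noncomputable def act (σ : GS L) (P : Pt F (SeparableClosure L)) : Pt F (SeparableClosure L) :=
  move F (χ σ) σ.toAlgHom P

/-- `c` is a continuous cocycle of the absolute Galois group with values in `J_χ(L^sep)`. -/
def IsCocycle (c : Cochain F) : Prop :=
  IsLocallyConstant c ∧ ∀ σ τ, c (σ * τ) = c σ + act F χ σ (c τ)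

/-- `c` is a coboundary. -/
def IsCoboundary (c : Cochain F) : Prop := ∃ P, ∀ σ, c σ = act F χ σ P - P

/-- For every embedding `ι` of the separable closures the restriction of `c` to the absolute Galois
group of the extension `L'` of `L`, with values in `J_χ`, is a coboundary. An automorphism `τ` over `L'`
acts by `P ↦ χ(σ) τ(P)`, where `σ` is the restriction of `τ`. -/
def LocallyTrivial (L' : Type) [Field L'] [Algebra L L'] (c : Cochain F) : Prop :=
  ∀ ι : SeparableClosure L →ₐ[L] SeparableClosure L', ∃ P : Pt F (SeparableClosure L'),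
    ∀ (τ : GS L') (σ : GS L), (∀ x, τ (ι x) = ι (σ x)) →
      move F 1 ι (c σ) = move F (χ σ) (τ.toAlgHom.restrictScalars L) P - P

/-- `P` is in `J_χ(L)`. -/
def IsPoint (P : Pt F (SeparableClosure L)) : Prop := ∀ σ : GS L, act F χ σ P = P

variable (R : Type) [CommRing R] [IsDedekindDomain R] [Algebra R L] [IsFractionRing R L]

/-- The class of `c` is zero over the completions of `L` at all maximal ideals of `R`. -/
def TrivialAtPrimes (c : Cochain F) : Prop :=
  ∀ v : HeightOneSpectrum R, LocallyTrivial F χ (v.adicCompletion L) c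

/-- The conjecture for `J_χ` and `ℓ = 2`, in the strongest possible form: multiplication by two is bijective
on `J_χ(L)`, every class of 2-power order in `H ^ 1 (L, J_χ)` which is zero over the completions of `L` at
all maximal ideals of `R` is zero, and for every `m` every class in `H ^ 1 (L, J_χ[2 ^ m])` whose image in
`H ^ 1` of these completions with values in `J_χ` is zero is zero. -/
structure NoTwoPart : Prop where
  injective : ∀ P, IsPoint F χ P → 2 • P = 0 → P = 0
  surjective : ∀ P, IsPoint F χ P → ∃ Q, IsPoint F χ Q ∧ 2 • Q = P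
  sha : ∀ (c : Cochain F) (m : ℕ), IsCocycle F χ c → TrivialAtPrimes F χ R c →
    IsCoboundary F χ (fun σ => 2 ^ m • c σ) → IsCoboundary F χ c
  selmer : ∀ (c : Cochain F) (m : ℕ), IsCocycle F χ c → (∀ σ, 2 ^ m • c σ = 0) →
    TrivialAtPrimes F χ R c → ∃ P, 2 ^ m • P = 0 ∧ ∀ σ, c σ = act F χ σ P - P

end twists

/-- `f` is irreducible modulo `P`. -/
def IrreducibleMod {k : Type} [Field k] (f : k[X][X]) (P : k[X]) : Prop :=
  Irreducible (f.map (Ideal.Quotient.mk (Ideal.span {P})))

/-- `P` is unramified in the extension `R` of `k[t]`. -/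
def Unramified {k : Type} [Field k] (R : Type) [CommRing R] [Algebra k[X] R] (P : k[X]) : Prop :=
  ∀ 𝔭 : Ideal R, 𝔭.IsPrime → algebraMap k[X] R P ∉ 𝔭 ^ 2

/-- `Q` splits completely in the extension `R` of `k[t]`: it is unramified, and every element of `R` is
congruent to a polynomial modulo every prime over `Q`. -/
def SplitsCompletely {k : Type} [Field k] (R : Type) [CommRing R] [Algebra k[X] R] (Q : k[X]) :
    Prop :=
  Unramified R Q ∧ ∀ 𝔭 : Ideal R, 𝔭.IsPrime → algebraMap k[X] R Q ∈ 𝔭 →
    ∀ x : R, ∃ c : k[X], x - algebraMap k[X] R c ∈ 𝔭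

/-- The class `C(f, S)`: the finite Galois extensions `M` of `K = k(t)` of 2-power degree in which all
`Q ∈ S` split completely and in which only such primes `P` of `k[t]` are ramified modulo which `f` is
irreducible. -/
structure InClass {k : Type} [Field k] (K : Type) [Field K] [Algebra k[X] K] (S : Finset k[X])
    (f : k[X][X]) (M : Type) [Field M] [Algebra K M] [Algebra k[X] M] : Prop where
  finite : FiniteDimensional K M
  galois : IsGalois K M
  degree : ∃ n : ℕ, Module.finrank K M = 2 ^ n
  split : ∀ Q ∈ S, SplitsCompletely (integralClosure k[X] M) Q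
  ramified : ∀ P : k[X], Irreducible P → Unramified (integralClosure k[X] M) P ∨ IrreducibleMod f P

/-- The field `N` is generated by the images of `M₁` and `M₂`. -/
def IsCompositum (M₁ M₂ N : Type) [Field M₁] [Field M₂] [Field N] [Algebra M₁ N]
    [Algebra M₂ N] : Prop :=
  ∀ F : Subfield N, (∀ x : M₁, algebraMap M₁ N x ∈ F) → (∀ x : M₂, algebraMap M₂ N x ∈ F) → F = ⊤

/-- The field `M` is generated by `r` over `K`. -/
def IsGeneratedBy (K : Type) {M : Type} [Field K] [Field M] [Algebra K M] (r : M) : Prop :=
  ∀ F : Subfield M, (∀ x : K, algebraMap K M x ∈ F) → r ∈ F → F = ⊤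

section properties

variable {k : Type} [Field k] (K : Type) [Field K] [Algebra k[X] K] (S : Finset k[X]) (f : k[X][X])

/-- The class is closed under composita. -/
def ClosedUnderComposita : Prop :=
  ∀ (M₁ M₂ N : Type) [Field M₁] [Algebra K M₁] [Algebra k[X] M₁] [IsScalarTower k[X] K M₁]
    [Field M₂] [Algebra K M₂] [Algebra k[X] M₂] [IsScalarTower k[X] K M₂]
    [Field N] [Algebra K N] [Algebra k[X] N] [IsScalarTower k[X] K N] [Algebra M₁ N]
    [IsScalarTower K M₁ N] [Algebra M₂ N] [IsScalarTower K M₂ N], IsCompositum M₁ M₂ N →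
    InClass K S f M₁ → InClass K S f M₂ → InClass K S f N

/-- The extension `K(√D)` is in the class. -/
def QuadraticInClass (D : k[X]) : Prop :=
  ∀ (M : Type) [Field M] [Algebra K M] [Algebra k[X] M] [IsScalarTower k[X] K M] (r : M),
    r ^ 2 = algebraMap k[X] M D → IsGeneratedBy K r → InClass K S f M

/-- There are infinitely many primes such that the extensions by square roots of products of an even
number of different ones are in the class. -/
def ManyQuadratic : Prop :=
  ∃ Y : Set k[X], Y.Infinite ∧ (∀ P ∈ Y, P.Monic ∧ Irreducible P) ∧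
    ∀ A : Finset k[X], (A : Set k[X]) ⊆ Y → Even A.card → QuadraticInClass K S f (∏ P ∈ A, P)

/-- For all the members `M` of the class, ALL the fields `L` between `K` and `M` and all
`χ : Gal(L^sep / L) → {1, -1}` which are trivial on the automorphisms over the image of `M` in `L^sep` the
Jacobian `J_χ` of the quadratic twist `X_χ` over `L` has no 2-part and its Selmer groups are zero. Here `R` is
the integral closure of `k[t]` in `L`. -/
def AllTwists : Prop :=
  ∀ (M : Type) [Field M] [Algebra K M] [Algebra k[X] M] [IsScalarTower k[X] K M],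
    InClass K S f M → ∀ (L : Type) [Field L] [Algebra K L] [Algebra k[X] L]
    [IsScalarTower k[X] K L] [Algebra L M] [IsScalarTower K L M] (R : Type) [CommRing R]
    [IsDedekindDomain R] [Algebra R L] [IsFractionRing R L] [Algebra k[X] R]
    [IsScalarTower k[X] R L] [IsIntegralClosure R k[X] L]
    (ψ : M →ₐ[L] SeparableClosure L) (χ : GS L →* ℤˣ),
    (∀ σ : GS L, (∀ x : M, σ (ψ x) = ψ x) → χ σ = 1) →
    NoTwoPart (f.map (algebraMap k[X] L)) χ R

end properties

/-- The property of the curve `y ^ 2 = f(x)`: the given extension `M₀` is in the class, the class is closed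
under composita and contains infinitely many quadratic extensions, and for all quadratic twists of the curve
over subfields of its members which are split by the members the Selmer groups are zero. -/
structure Good {k : Type} [Field k] (K : Type) [Field K] [Algebra k[X] K]
    (S : Finset k[X]) (M₀ : Type) [Field M₀] [Algebra K M₀] [Algebra k[X] M₀] (f : k[X][X]) :
    Prop where
  base : InClass K S f M₀
  composita : ClosedUnderComposita K S f
  many : ManyQuadratic K S f
  twists : AllTwists K S f

/-- The curves of genus `g` over `K` and height at most `N` with the property. -/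
def GoodCurves (k : Type) [Field k] (K : Type) [Field K] [Algebra k[X] K]
    (S : Finset k[X]) (M₀ : Type) [Field M₀] [Algebra K M₀] [Algebra k[X] M₀] (g N : ℕ) :
    Set k[X][X] :=
  {f ∈ Curves k K g N | Good K S M₀ f}

theorem class_iff {k : Type} [Field k] {K : Type} [Field K] [Algebra k[X] K]
    [IsFractionRing k[X] K] {S : Finset k[X]} (hS : ∀ Q ∈ S, Irreducible Q)
    {f : k[X][X]} {M : Type} [Field M] [Algebra K M] [Algebra k[X] M] [IsScalarTower k[X] K M] :
    InClass K S f M ↔ Pool.Agent.U693.FF.Cls k[X] K S (Pool.Agent.U693.FF.IrrMod f) M := by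
  constructor
  · intro h
    refine ⟨h.finite, h.galois, h.degree, fun Q hQ 𝔭 h𝔭 hm => ?_, fun P hP hex => ?_⟩
    · exact ⟨(h.split Q hQ).1 𝔭 h𝔭, (h.split Q hQ).2 𝔭 h𝔭 hm⟩
    · obtain ⟨𝔭, h𝔭, h2⟩ := hex
      exact (h.ramified P hP).resolve_left fun h3 => h3 𝔭 h𝔭 h2
  · intro h
    refine ⟨h.finite, h.galois, h.degree, fun Q hQ => ⟨fun 𝔭 h𝔭 h2 => ?_, fun 𝔭 h𝔭 hm => ?_⟩,
      fun P hP => ?_⟩
    · exact (h.split Q hQ 𝔭 h𝔭 (Ideal.pow_le_self two_ne_zero h2)).1 h2
    · exact (h.split Q hQ 𝔭 h𝔭 hm).2
    · by_cases h1 : Unramified (integralClosure k[X] M) P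
      · exact Or.inl h1
      · right
        apply h.ram P hP
        unfold Unramified at h1
        push Not at h1
        exact h1

theorem mapJ_eq {L : Type} [Field L] (F : L[X]) {E E' : Type} [Field E] [Field E'] [Algebra L E]
    [Algebra L E'] (φ : E →ₐ[L] E') (x : Additive (J F E)) :
    (mapJ F φ).toAdditive x = jm 2 F φ x := Pool.Agent.N106.JB.ad_mapJ φ x.toMul

/-- The one-dimensional representation given by a character. -/
noncomputable def rep {L : Type} [Field L] (χ : GS L →* ℤˣ) :
    GS L →* Matrix.GeneralLinearGroup (Fin 1) ℤ :=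
  (Units.map ((Matrix.scalar (Fin 1) : ℤ →+* Matrix (Fin 1) (Fin 1) ℤ) :
    ℤ →* Matrix (Fin 1) (Fin 1) ℤ)).comp χ

theorem rep_val {L : Type} [Field L] (χ : GS L →* ℤˣ) (σ : GS L) (i j : Fin 1) :
    (rep χ σ).1 i j = (χ σ : ℤ) := by
  have hi : i = 0 := Subsingleton.elim _ _
  have hj : j = 0 := Subsingleton.elim _ _
  subst hi
  subst hj
  show (Matrix.scalar (Fin 1) ((χ σ : ℤˣ) : ℤ)) 0 0 = _
  rw [Matrix.scalar_apply, Matrix.diagonal_apply_eq]

theorem mt_rep {L : Type} [Field L] {F : L[X]} (χ : GS L →* ℤˣ) (σ : GS L) {E E' : Type} [Field E]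
    [Field E'] [Algebra L E] [Algebra L E'] (φ : E →ₐ[L] E') (x : Additive (J F E)) :
    Pool.Agent.U693.AF.mt (rep χ σ).1 (Pool.Agent.U693.AF.mp (jm 2 F φ) (fun _ : Fin 1 => x)) =
      fun _ => move F (χ σ) φ x := by
  funext i
  rw [Pool.Agent.U693.AF.mt_apply, Fin.sum_univ_one, rep_val]
  exact congrArg (fun z => (χ σ : ℤ) • z) (mapJ_eq F φ x).symm

theorem const_eq {A : Type} (x : Fin 1 → A) : (fun _ : Fin 1 => x 0) = x := by
  funext i
  rw [Subsingleton.elim i 0]

theorem act_sub {L : Type} [Field L] {F : L[X]} {χ : GS L →* ℤˣ} (σ : GS L)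
    (P Q : Pt F (SeparableClosure L)) : act F χ σ (P - Q) = act F χ σ P - act F χ σ Q := by
  show (χ σ : ℤ) • (mapJ F σ.toAlgHom).toAdditive (P - Q) = _
  rw [map_sub, zsmul_sub]
  rfl

theorem act_nsmul {L : Type} [Field L] {F : L[X]} {χ : GS L →* ℤˣ} (σ : GS L) (n : ℕ)
    (P : Pt F (SeparableClosure L)) : act F χ σ (n • P) = n • act F χ σ P := by
  show (χ σ : ℤ) • (mapJ F σ.toAlgHom).toAdditive (n • P) = n • ((χ σ : ℤ) • _)
  rw [map_nsmul, smul_comm]

/-- The statement on the Selmer groups follows from the others. -/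
theorem selmer_of {L A : Type} [CommRing A] [IsDedekindDomain A] [Field L] [Algebra A L]
    [IsFractionRing A L] {F : L[X]} {χ : GS L →* ℤˣ}
    (h : (∀ P, IsPoint F χ P → 2 • P = 0 → P = 0) ∧
      (∀ P, IsPoint F χ P → ∃ Q, IsPoint F χ Q ∧ 2 • Q = P) ∧
      ∀ (c : Cochain F) (m : ℕ), IsCocycle F χ c → TrivialAtPrimes F χ A c →
        IsCoboundary F χ (fun σ => 2 ^ m • c σ) → IsCoboundary F χ c) : NoTwoPart F χ A := by
  obtain ⟨h1, h2, h3⟩ := h
  have div : ∀ (m : ℕ) P, IsPoint F χ P → ∃ Q, IsPoint F χ Q ∧ 2 ^ m • Q = P := by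
    intro m
    induction m with
    | zero => exact fun P hP => ⟨P, hP, by rw [pow_zero, one_nsmul]⟩
    | succ m ih =>
      intro P hP
      obtain ⟨Q, hQ, rfl⟩ := ih P hP
      obtain ⟨T, hT, rfl⟩ := h2 Q hQ
      exact ⟨T, hT, by rw [pow_succ, mul_nsmul']⟩
  refine ⟨h1, h2, h3, fun c m hc h0 hl => ?_⟩
  obtain ⟨P, hP⟩ := h3 c m hc hl ⟨0, fun σ => by
    have e : act F χ σ 0 = 0 := by
      have := act_sub (F := F) (χ := χ) σ 0 0
      rwa [sub_self, sub_self] at this
    rw [e, sub_zero]
    exact h0 σ⟩
  have hfix : IsPoint F χ (2 ^ m • P) := fun σ => by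
    have e := h0 σ
    rw [hP σ, nsmul_sub, ← act_nsmul, sub_eq_zero] at e
    exact e
  obtain ⟨Q, hQ, hQP⟩ := div m _ hfix
  refine ⟨P - Q, by rw [nsmul_sub, hQP, sub_self], fun σ => ?_⟩
  rw [act_sub, hQ σ, hP σ]
  abel

/-- The twists which are split by `M`. -/
theorem twist_of {L A : Type} [CommRing A] [IsDedekindDomain A] [Field L] [Algebra A L]
    [IsFractionRing A L] {F : L[X]} {χ : GS L →* ℤˣ}
    (h : Pool.Agent.U693.AF.NoTwo F (rep χ) A) : NoTwoPart F χ A := by
  refine selmer_of ?_
  obtain ⟨⟨p1, p2⟩, p3⟩ := h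
  have key : ∀ (σ : GS L) (x : Additive (J F (SeparableClosure L))),
      Pool.Agent.U693.AF.ta F (rep χ) σ (fun _ : Fin 1 => x) = fun _ => act F χ σ x :=
    fun σ x => mt_rep χ σ σ.toAlgHom x
  refine ⟨fun P hP h0 => ?_, fun P hP => ?_, fun c m hc hl hb => ?_⟩
  · have h1 := p1 (fun _ => P) (fun σ => by rw [key, hP σ]) (by
      funext i
      exact h0)
    exact congrFun h1 0
  · obtain ⟨y, hy, hy2⟩ := p2 (fun _ => P) (fun σ => by rw [key, hP σ])
    refine ⟨y 0, fun σ => ?_, congrFun hy2 0⟩
    have h3 := hy σ
    rw [← const_eq y] at h3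
    exact congrFun ((key σ (y 0)).symm.trans h3) 0
  · have h1 : Pool.Agent.U693.AF.TCoc F (rep χ) (fun σ _ => c σ) := by
      refine ⟨hc.1.comp (fun x => fun _ : Fin 1 => x), fun σ τ => ?_⟩
      funext i
      have h5 := congrFun (mt_rep χ σ σ.toAlgHom (c τ)) i
      exact (hc.2 σ τ).trans (congrArg (fun z => c σ + z) h5.symm)
    have h2 : ∀ v : HeightOneSpectrum A,
        Pool.Agent.U693.AF.TLoc F (rep χ) (v.adicCompletion L) (fun σ _ => c σ) := by
      intro v ι
      obtain ⟨P, hP⟩ := hl v ι
      refine ⟨fun _ => P, fun τ σ hx => ?_⟩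
      funext i
      have h5 := congrFun (mt_rep χ σ (τ.toAlgHom.restrictScalars L) P) i
      have h6 := hP τ σ hx
      have h7 : jm 2 F ι (c σ) = move F 1 ι (c σ) := by
        show _ = ((1 : ℤˣ) : ℤ) • (mapJ F ι).toAdditive (c σ)
        rw [Units.val_one, one_zsmul, mapJ_eq]
      exact (h7.trans h6).trans (congrArg (fun z => z - P) h5.symm)
    have h3 : Pool.Agent.U693.AF.TCob F (rep χ) (fun σ => 2 ^ m • fun _ : Fin 1 => c σ) := by
      obtain ⟨P, hP⟩ := hb
      refine ⟨fun _ => P, fun σ => ?_⟩
      funext i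
      have h5 := congrFun (mt_rep χ σ σ.toAlgHom P) i
      exact (hP σ).trans (congrArg (fun z => z - P) h5.symm)
    obtain ⟨Q, hQ⟩ := p3 (fun σ _ => c σ) m h1 h2 h3
    refine ⟨Q 0, fun σ => ?_⟩
    have h4 := hQ σ
    rw [← const_eq Q] at h4
    have h5 := congrFun (mt_rep χ σ σ.toAlgHom (Q 0)) (0 : Fin 1)
    exact (congrFun h4 0).trans (congrArg (fun z => z - Q 0) h5)

theorem good_of {k : Type} [Field k] [Finite k] (h2 : (2 : k) ≠ 0) {K : Type} [Field K]
    [Algebra k[X] K] [IsFractionRing k[X] K]
    {S : Finset k[X]} (hS : ∀ Q ∈ S, Irreducible Q)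
    {M₀ : Type} [Field M₀] [Algebra K M₀] [Algebra k[X] M₀] [IsScalarTower k[X] K M₀] {f : k[X][X]}
    (hf : f.Monic) (ho : Odd f.natDegree) (hs : (f.map (algebraMap k[X] K)).Separable)
    (h : Pool.Agent.U693.FF.Prp K ∅ S M₀ f) : Good K S M₀ f := by
  refine ⟨(class_iff hS).2 h.base, ?_, ?_, ?_⟩
  · intro M₁ M₂ N _ _ _ _ _ _ _ _ _ _ _ _ _ _ _ _ hg h1 h2
    exact (class_iff hS).2 (h.comp M₁ M₂ N hg ((class_iff hS).1 h1) ((class_iff hS).1 h2))
  · obtain ⟨Y, y1, y2, y3⟩ := h.many
    exact ⟨Y, y1, y2, fun A hA hev M _ _ _ _ r hr hg => (class_iff hS).2 (y3 A hA hev M r hr hg)⟩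
  · intro M _ _ _ _ h1 L _ _ _ _ _ _ A _ _ _ _ _ _ _ ψ χ hχ
    exact twist_of (Pool.Agent.U693.AF.all_sub h2 hf ho hs h M ((class_iff hS).1 h1) L A ψ 1 (rep χ)
      (fun σ hσ => by
        show Units.map _ (χ σ) = 1
        rw [hχ σ hσ, map_one]))

/-- For every `g ≥ 1`, every finite field `k` of characteristic larger than `2 g + 1` and every finite
Galois extension `M₀` of `K = k(t)` of 2-power degree there are a finite set `S` of primes of `k[t]` and a
positive constant `c` such that for all large `N` at least `c` times the number of all the curves of genus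
`g` over `K` of height at most `N` with a rational Weierstrass point are good: the class of the finite
Galois extensions `M` of `K` of 2-power degree in which all `Q ∈ S` split completely and in which only
primes are ramified modulo which `f` is irreducible contains `M₀` and all `K(√D)`, `D` a product of an even
number of different elements of an infinite set of primes, it is closed under composita, and for ALL `M`
in the class, ALL fields `L` between `K` and `M` and ALL quadratic characters `χ` of `L` trivial over `M`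
multiplication by two is bijective on `J_χ(L)`, the 2-primary part of the Tate-Shafarevich group of the
Jacobian `J_χ` of the twisted curve over `L` is zero and all the Selmer groups `Sel(J_χ, 2 ^ m)` over `L` are
zero. -/
theorem result (g : ℕ) (hg : 1 ≤ g) (k : Type) [Field k] [Finite k]
    (hp : ((2 * g + 1).factorial : k) ≠ 0) (K : Type) [Field K] [Algebra k[X] K]
    [IsFractionRing k[X] K]
    (M₀ : Type) [Field M₀] [Algebra K M₀] [Algebra k[X] M₀] [IsScalarTower k[X] K M₀]
    [FiniteDimensional K M₀] [IsGalois K M₀] (n : ℕ) (hn : Module.finrank K M₀ = 2 ^ n) :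
    (∀ N : ℕ, (Curves k K g N).Finite) ∧
    ∃ S : Finset k[X], (∀ Q ∈ S, Q.Monic ∧ Irreducible Q) ∧
      ∃ c : ℝ, 0 < c ∧ ∀ᶠ N : ℕ in atTop, 0 < (Curves k K g N).ncard ∧
        c * ((Curves k K g N).ncard : ℝ) ≤ ((GoodCurves k K S M₀ g N).ncard : ℝ) := by
  have h2 : (2 : k) ≠ 0 := by
    intro h0
    apply hp
    obtain ⟨d, hd⟩ : 2 ∣ (2 * g + 1).factorial := Nat.dvd_factorial (by norm_num) (by omega)
    rw [hd, Nat.cast_mul, Nat.cast_ofNat, h0, zero_mul]
  have hsub : ∀ N, Curves k K g N ⊆ {f : k[X][X] | Pool.Agent.N352.PJ.Ht g N f} :=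
    fun N f hf => ⟨hf.monic, hf.degree, hf.trace, hf.height⟩
  have hfin : ∀ N, (Curves k K g N).Finite := fun N =>
    (Pool.Agent.N415.PJMAIN.ht_card (k := k) g N).1.subset (hsub N)
  refine ⟨hfin, ?_⟩
  obtain ⟨S, hS, hdis, c, hc, N₀, hN₀⟩ := Pool.Agent.U693.FF.finalF k hg hp K ∅ (by simp) M₀ hn
  refine ⟨S, hS, c, hc, ?_⟩
  filter_upwards [eventually_ge_atTop N₀] with N hN
  obtain ⟨hHt, hle⟩ := hN₀ N hN
  have hsub2 : {f : k[X][X] | Pool.Agent.N352.PJ.Ht g N f ∧ Pool.Agent.N352.PJ.Mini g f ∧
      (f.map (algebraMap k[X] K)).Separable ∧ Pool.Agent.U693.FF.Prp K ∅ S M₀ f} ⊆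
      GoodCurves k K S M₀ g N := by
    rintro f ⟨a1, a2, a3, a4⟩
    exact ⟨⟨a1.mon, a1.deg, a1.tr, a1.ht, a3, a2⟩, good_of h2 (fun Q hQ => (hS Q hQ).2) a1.mon
      (by rw [a1.deg]; exact odd_two_mul_add_one g) a3 a4⟩
  have hfin2 : (GoodCurves k K S M₀ g N).Finite := (hfin N).subset fun f hf => hf.1
  have h1 := Set.ncard_le_ncard hsub2 hfin2
  have h2' : c * ({f : k[X][X] | Pool.Agent.N352.PJ.Ht g N f}.ncard : ℝ) ≤
      ((GoodCurves k K S M₀ g N).ncard : ℝ) := hle.trans (by exact_mod_cast h1)
  have hne : 0 < {f : k[X][X] | Pool.Agent.N352.PJ.Ht g N f}.ncard := by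
    rw [Set.ncard_pos hHt]
    refine ⟨X ^ (2 * g + 1), monic_X_pow _, natDegree_X_pow _, ?_, fun j hj => ?_⟩
    · rw [coeff_X_pow, if_neg (by omega)]
    · rw [coeff_X_pow, if_neg (by omega), natDegree_zero]
      exact Nat.zero_le _
  have h3 : 0 < ((GoodCurves k K S M₀ g N).ncard : ℝ) := by
    refine lt_of_lt_of_le ?_ h2'
    exact mul_pos hc (by exact_mod_cast hne)
  refine ⟨?_, ?_⟩
  · have h4 := Set.ncard_le_ncard (s := GoodCurves k K S M₀ g N) (t := Curves k K g N)
      (fun f hf => hf.1) (hfin N)
    have h5 : 0 < (GoodCurves k K S M₀ g N).ncard := by exact_mod_cast h3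
    omega
  · refine le_trans ?_ h2'
    have h4 := Set.ncard_le_ncard (hsub N) hHt
    exact mul_le_mul_of_nonneg_left (by exact_mod_cast h4) hc.le

end Pool.Agent.Results.MP_1bdb59_nt.SelmerOverSubfields
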